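import Pool.Agent.Lib.MP_5b6326_al.GassnerProof

/-!
# Patterns in the kernel of the Gassner representation

The strands are numbered `0, …, m`, so `Braid m` is the braid group on `n = m + 1` strands. It acts on
the free group `F m` by Artin's action (`artin`), and `gassner β` is the matrix of the images
`φ (∂ β(x_i) / ∂ x_j)` of the Fox derivatives. Every pure braid has a combed form
`β = β_m β_{m-1} ⋯ β_1`, where `β_c` is a reduced word in the generators `A_{0c}, …, A_{c-1,c}`.

**Theorem.** If the Gassner matrix of the pure braid `β` is the identity then the same holds for every
factor `β_c` of its combed form, and the reduced word of every factor `β_c ≠ 1` contains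
consecutive syllables `A_j^e A_i^{-1} A_k^f` with `i, j, k` different and in this cyclic order, and
consecutive syllables `A_j^e A_i^{+1} A_k^f` with `i, k, j` different and in this cyclic order.

So every factor `β_c` of a non-trivial kernel element has syllables with exponent `-1` and with exponent
`+1`, each between two syllables that are placed in a prescribed cyclic order.

Proof. Put `t_i = 1 / (4 q)` for `i ≠ c`, `t_c = q` and let `q → 0+`. In suitable coordinates the
syllable `A_i^e` maps the limits of the partial sums by a recursion with positive coefficients unless
`e = -1`, and for `e = -1` positivity is lost only when the next syllable passes the previous one in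
the cyclic order. So without the first pattern the limit of the image of a basis vector is not
that vector. The second pattern is the first pattern for the inverse.
-/

set_option autoImplicit false

namespace Pool.Agent.Results.MP_5b6326_al.GassnerPatterns

open MP5b6326

theorem result (m : ℕ) (β : Braid m) (hβ : perm m β = 1) (h : gassner β = 1) :
    (∃ w, IsCombed m β w) ∧ ∀ w, IsCombed m β w → ∀ c ≤ m,
      gassner (word m c (w c)) = 1 ∧ (w c ≠ [] → MinusPattern (w c) ∧ PlusPattern (w c)) :=
  main m β hβ h

end Pool.Agent.Results.MP_5b6326_al.GassnerPatterns
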